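import Pool.Agent.Helper79.AL.St1

/-!
# Project AL (MP_2b6189_al), module LU: the torus away from `p` acts trivially on `y ≠ 0`, `t ≠ 1`
-/

set_option autoImplicit false

namespace Pool.Agent.Helper25.AL

open Matrix ComplexConjugate Pool.Agent.Helper94.YG
open Pool.Agent.Helper94.YF hiding StORB
open Pool.Agent.Helper89.OS Pool.Agent.Helper89.OC
open Pool.Agent.Helper79.AL

private theorem ext4 {L : ℕ} {A B : SL L} (h1 : A.1 0 0 = B.1 0 0) (h2 : A.1 0 1 = B.1 0 1)
    (h3 : A.1 1 0 = B.1 1 0) (h4 : A.1 1 1 = B.1 1 1) : A = B := by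
  apply Subtype.ext
  ext i j
  fin_cases i <;> fin_cases j
  · exact h1
  · exact h2
  · exact h3
  · exact h4

private theorem mulE {L : ℕ} (A B : SL L) (i j : Fin 2) :
    (A * B).1 i j = A.1 i 0 * B.1 0 j + A.1 i 1 * B.1 1 j := by
  change (A.1 * B.1) i j = _
  rw [Matrix.mul_apply, Fin.sum_univ_two]

private theorem u00 {L : ℕ} (z : ZMod L) : (U z).1 0 0 = 1 := rfl
private theorem u01 {L : ℕ} (z : ZMod L) : (U z).1 0 1 = z := rfl
private theorem u10 {L : ℕ} (z : ZMod L) : (U z).1 1 0 = 0 := rfl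
private theorem u11 {L : ℕ} (z : ZMod L) : (U z).1 1 1 = 1 := rfl
private theorem l00 {L : ℕ} (z : ZMod L) : (Lo z).1 0 0 = 1 := rfl
private theorem l01 {L : ℕ} (z : ZMod L) : (Lo z).1 0 1 = 0 := rfl
private theorem l10 {L : ℕ} (z : ZMod L) : (Lo z).1 1 0 = z := rfl
private theorem l11 {L : ℕ} (z : ZMod L) : (Lo z).1 1 1 = 1 := rfl
private theorem d00 {L : ℕ} (c : (ZMod L)ˣ) : (Dg c).1 0 0 = (c : ZMod L) := rfl
private theorem d01 {L : ℕ} (c : (ZMod L)ˣ) : (Dg c).1 0 1 = 0 := rfl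
private theorem d10 {L : ℕ} (c : (ZMod L)ˣ) : (Dg c).1 1 0 = 0 := rfl
private theorem d11 {L : ℕ} (c : (ZMod L)ˣ) : (Dg c).1 1 1 = ((c⁻¹ : (ZMod L)ˣ) : ZMod L) := rfl
private theorem o00 {L : ℕ} : (1 : SL L).1 0 0 = 1 := rfl
private theorem o01 {L : ℕ} : (1 : SL L).1 0 1 = 0 := rfl
private theorem o10 {L : ℕ} : (1 : SL L).1 1 0 = 0 := rfl
private theorem o11 {L : ℕ} : (1 : SL L).1 1 1 = 1 := rfl

private theorem s00 {L : ℕ} {b : ZMod L} (hb : b * b = b) : (s2 b).1 0 0 = 1 - b := by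
  simp only [s2, mulE, u00, u01, u10, l00, l01, l10, l11]
  linear_combination (-1 : ZMod L) * hb
private theorem s01 {L : ℕ} {b : ZMod L} (hb : b * b = b) : (s2 b).1 0 1 = -b := by
  simp only [s2, mulE, u00, u01, u11, l00, l01, l10, l11]
  linear_combination (b + 1) * hb
private theorem s10 {L : ℕ} {b : ZMod L} : (s2 b).1 1 0 = b := by
  simp only [s2, mulE, u00, u10, u11, l00, l01, l10, l11]
  ring
private theorem s11 {L : ℕ} {b : ZMod L} (hb : b * b = b) : (s2 b).1 1 1 = 1 - b := by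
  simp only [s2, mulE, u01, u10, u11, l00, l01, l10, l11]
  linear_combination (-1 : ZMod L) * hb

private theorem dg_one {L : ℕ} : (Dg (1 : (ZMod L)ˣ) : SL L) = 1 := by
  apply ext4
  · rw [d00, o00, Units.val_one]
  · rw [d01, o01]
  · rw [d10, o10]
  · rw [d11, o11, inv_one, Units.val_one]

/-- the relation in `SL(2, Z/L)` for the idempotent `c` and a unit `x` with `(x - 1) (1 - c) = 0` -/
private theorem rel {L : ℕ} (c : ZMod L) (x : (ZMod L)ˣ) (hc : c * c = c)
    (hx : ((x : ZMod L) - 1) * (1 - c) = 0) :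
    (s2 c * U ((x : ZMod L) * c) * s2 c : SL L) =
      U (-(((x⁻¹ : (ZMod L)ˣ) : ZMod L) * c)) * s2 c * Dg x *
        U (-(((x⁻¹ : (ZMod L)ˣ) : ZMod L) * c)) := by
  have hxy : (x : ZMod L) * ((x⁻¹ : (ZMod L)ˣ) : ZMod L) = 1 := Units.mul_inv x
  have hy : (((x⁻¹ : (ZMod L)ˣ) : ZMod L) - 1) * (1 - c) = 0 := by
    linear_combination (-((x⁻¹ : (ZMod L)ˣ) : ZMod L)) * hx + (1 - c) * hxy
  generalize hX : (x : ZMod L) = X at *
  generalize hY : ((x⁻¹ : (ZMod L)ˣ) : ZMod L) = Y at *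
  apply ext4
  · simp only [mulE, s00 hc, s01 hc, s10, s11 hc, d00, d01, d10, d11, u00, u01, u10, u11, hX, hY]
    grind
  · simp only [mulE, s00 hc, s01 hc, s10, s11 hc, d00, d01, d10, d11, u00, u01, u10, u11, hX, hY]
    grind
  · simp only [mulE, s00 hc, s01 hc, s10, s11 hc, d00, d01, d10, d11, u00, u01, u10, u11, hX, hY]
    grind
  · simp only [mulE, s00 hc, s01 hc, s10, s11 hc, d00, d01, d10, d11, u00, u01, u10, u11, hX, hY]
    grind

private theorem tw_one {I : Type} [Fintype I] [DecidableEq I] (Z : CentreData I)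
    (hadd : ∀ x y i, Z.tw (x + y) i = Z.tw x i * Z.tw y i) (h0 : ∀ i, Z.tw 0 i = 1)
    (c : ZMod Z.L) (j : I) (hj : Z.tw c j = 1) (z : ZMod Z.L) : Z.tw (z * c) j = 1 := by
  have : NeZero Z.L := ⟨Z.L_pos.ne'⟩
  have h : ∀ k : ℕ, Z.tw ((k : ZMod Z.L) * c) j = 1 := by
    intro k
    induction k with
    | zero => rw [Nat.cast_zero, zero_mul, h0]
    | succ k ih => rw [Nat.cast_succ, add_mul, one_mul, hadd, ih, hj, one_mul]
  have h2 := h z.val
  rwa [ZMod.natCast_zmod_val] at h2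

theorem hLU : StLU := by
  intro hUNQ hGAZ hSRU hETA hDZ hGLA hFCA I _ _ Z p b X e hX hp he hye x hx j hyj htj
  obtain ⟨hU, -, hadd, h0, -, htwo, -⟩ :=
    Helper36.YF.hFUS Helper88.YF.hDUA I Z.toCentreRep
  have F := hFCA I Z
  obtain ⟨S1, S2, -, -, -⟩ := hSRU hFCA I Z p b X hX
  have unq := hUNQ hGAZ hSRU hETA hDZ hGLA hFCA I Z p b X e hX hp he hye
  have hb : b * b = b := hX.lk.idp.idem
  have hc : (1 - b) * (1 - b) = 1 - b := by linear_combination hb
  have hm : (X.m : ℂ) ≠ 0 := by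
    have := X.m_odd.pos
    exact_mod_cast this.ne'
  have hpp : (p : ℂ) ≠ 0 := by exact_mod_cast X.prime.ne_zero
  have hXt : X.t = Z.tw b := hX.lk.t
  have hXy : ∀ i, (X.y i : ℂ) = (p : ℂ) * Z.rho (s2 b) i Z.o := by
    intro i
    rw [← X.s_o i, hX.lk.s, hX.lk.o]
  -- the part of the twist away from `p` is trivial on the principal block
  have hB : ∀ j, X.y j ≠ 0 → ∀ z : ZMod Z.L, Z.tw (z * (1 - b)) j = 1 := by
    intro j hj z
    apply tw_one Z hadd h0
    have h1 : Z.rho (s2 b) j Z.o ≠ 0 := by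
      intro h
      apply hj
      have := hXy j
      rw [h, mul_zero] at this
      exact_mod_cast this
    rw [F.supp (1 - b) b hc hb (by linear_combination (-1 : ZMod Z.L) * hb) j Z.o h1]
    exact htwo _
  -- the key vanishing statement
  have key : ∀ (x : (ZMod Z.L)ˣ), Tr Z b x → ∀ π : I → I, Function.Injective π →
      (∀ i k, Z.rho (Dg x) i k = if k = π i then 1 else 0) → ∀ j1 k0, X.y j1 ≠ 0 →
      X.y (π k0) ≠ 0 → X.t (π k0) ≠ 1 → j1 ≠ π k0 → zz Z b X j1 k0 = 0 := by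
    intro x hx π hπ hG j1 k0 hj1 hk0 htk0 hne
    have hrel := congrArg Z.rho (rel (1 - b) x hc (by
      have : ((x : ZMod Z.L) - 1) * b = 0 := hx
      linear_combination this))
    simp only [map_mul, hU] at hrel
    have hent := congrFun (congrFun hrel j1) (π k0)
    have hL : (Z.rho (s2 (1 - b)) * Matrix.diagonal (Z.tw ((x : ZMod Z.L) * (1 - b))) *
        Z.rho (s2 (1 - b))) j1 (π k0) = 0 := by
      rw [Matrix.mul_apply]
      apply Finset.sum_eq_zero
      intro k _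
      rw [Matrix.mul_diagonal]
      by_contra hcon
      have h1 : Z.rho (s2 (1 - b)) j1 k ≠ 0 := by
        intro h
        apply hcon
        rw [h, zero_mul, zero_mul]
      have h2 : Z.rho (s2 (1 - b)) k (π k0) ≠ 0 := by
        intro h
        apply hcon
        rw [h, mul_zero]
      have h3 : zz Z b X j1 k ≠ 0 := mul_ne_zero hm h1
      have h4 : zz Z b X (π k0) k ≠ 0 := by
        rw [S1]
        exact mul_ne_zero hm h2
      have h5 : X.t k ≠ 1 := by
        rw [← S2 _ _ h4]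
        exact htk0
      obtain ⟨j, -, -, -, hu⟩ := unq k h5
      exact hne ((hu j1 hj1 h3).trans (hu (π k0) hk0 h4).symm)
    rw [hL] at hent
    have hR : (Matrix.diagonal (Z.tw (-(((x⁻¹ : (ZMod Z.L)ˣ) : ZMod Z.L) * (1 - b)))) *
        Z.rho (s2 (1 - b)) * Z.rho (Dg x) *
        Matrix.diagonal (Z.tw (-(((x⁻¹ : (ZMod Z.L)ˣ) : ZMod Z.L) * (1 - b))))) j1 (π k0) =
        Z.rho (s2 (1 - b)) j1 k0 := by
      rw [Matrix.mul_diagonal, Matrix.mul_apply]
      have e1 : (-(((x⁻¹ : (ZMod Z.L)ˣ) : ZMod Z.L) * (1 - b))) =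
          (-((x⁻¹ : (ZMod Z.L)ˣ) : ZMod Z.L)) * (1 - b) := by ring
      rw [e1, hB _ hk0, mul_one, Finset.sum_eq_single k0]
      · rw [Matrix.diagonal_mul, hB _ hj1, one_mul, hG, if_pos rfl, mul_one]
      · intro l _ hl
        rw [hG, if_neg (fun h => hl (hπ h).symm), mul_zero]
      · intro h
        exact absurd (Finset.mem_univ _) h
    rw [hR] at hent
    rw [zz, ← hent, mul_zero]
  obtain ⟨π, hbij, hG, ho, -, -, htw, hs, -⟩ := F.perm x
  have hxb : ((x : ZMod Z.L) - 1) * b = 0 := hx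
  have hty : X.t (π j) = X.t j := by
    rw [hXt]
    exact htw b hxb j
  have hyy : X.y (π j) = X.y j := by
    have h1 := hs b hb hxb j Z.o
    rw [(ho Z.o).2 rfl] at h1
    have h2 := hXy (π j)
    rw [h1, ← hXy j] at h2
    exact_mod_cast h2
  obtain ⟨j1, hj1, -, hzz, -⟩ := unq j htj
  have hG1 : ∀ i k : I, Z.rho (Dg (1 : (ZMod Z.L)ˣ)) i k = if k = id i then 1 else 0 := by
    intro i k
    rw [dg_one, map_one, Matrix.one_apply]
    simp only [id, eq_comm]
  have hA : j1 = π j := by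
    by_contra hne
    exact hzz (key x hx π hbij.injective hG j1 j hj1 (by rw [hyy]; exact hyj)
      (by rw [hty]; exact htj) hne)
  have hC : j1 = j := by
    by_contra hne
    exact hzz (key 1 (by rw [Tr, Units.val_one, sub_self, zero_mul]) id Function.injective_id
      hG1 j1 j hj1 hyj htj hne)
  rw [hG, if_pos]
  exact hC.symm.trans hA

end Pool.Agent.Helper25.AL
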